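import Pool.Agent.H66.L.S8.H728R2.OS.Defs

/-!
# Finiteness of attractors for projective skew products: definitions
-/

open Set Filter Topology MeasureTheory

namespace Pool.Agent.H728R2.FA

open Pool.Agent.H728R2.OS

section Attractors

variable {X : Type*} [TopologicalSpace X]

/-- The `ω`-limit set of the forward orbit of `p`. -/
def omegaLim (f : X → X) (p : X) : Set X :=
  {q | ∀ U ∈ 𝓝 q, ∀ N : ℕ, ∃ n : ℕ, N ≤ n ∧ f^[n] p ∈ U}

/-- `Λ` is an attractor of `f`: it is invariant, it contains a point whose forward orbit is dense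
in `Λ`, and its basin `{p | ω(p) ⊆ Λ}` has positive measure. -/
def IsAttractor [MeasurableSpace X] (μ : Measure X) (f : X → X) (Λ : Set X) : Prop :=
  f '' Λ = Λ ∧ (∃ x ∈ Λ, Λ ⊆ closure (range fun n : ℕ => f^[n] x)) ∧
    0 < μ {p | omegaLim f p ⊆ Λ}

/-- `f` has finitely many attractors covering the space: the union of their basins has full
measure. -/
def FiniteAttractors [MeasurableSpace X] (μ : Measure X) (f : X → X) : Prop :=
  ∃ (k : ℕ) (Λ : Fin k → Set X), (∀ i, IsAttractor μ f (Λ i)) ∧
    μ {p | ∀ i, ¬ omegaLim f p ⊆ Λ i} = 0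

/-- There is a closed attractor which is the `ω`-limit set of almost every point. -/
def OneAttractor [MeasurableSpace X] (μ : Measure X) (f : X → X) : Prop :=
  ∃ Λ : Set X, IsClosed Λ ∧ IsAttractor μ f Λ ∧ ∀ᵐ p ∂μ, omegaLim f p = Λ

end Attractors

/-- The map `(x, y) ↦ f (x, y) + (0, θ)`. -/
noncomputable def rotated {B : Type*} [TopologicalSpace B] (f : (B × Circ) ≃ₜ (B × Circ))
    (θ : ℝ) : (B × Circ) ≃ₜ (B × Circ) :=
  f.trans ((Homeomorph.refl B).prodCongr (Homeomorph.addRight (θ : UnitAddCircle)))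

end Pool.Agent.H728R2.FA
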